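import Mathlib
import Pool.Agent.H23.NTCoverA

set_option autoImplicit false

namespace Pool.Agent.Results.MP_2c613a_co.Infinite
open Pool.Agent.H23.NTCover

theorem result :
    (∀ r N : ℕ, 3 ≤ r → ∃ (V : Type) (_ : Fintype V) (_ : DecidableEq V) (side : V → Fin r)
      (E : Finset (Finset V)), RPartite side E ∧ Intersecting E ∧ (∃ C, NTCov side E C) ∧
        ∀ C, NTCov side E C → N ≤ C.card) ∧
    (∀ (V : Type) [Fintype V] [DecidableEq V] (side : V → Fin 2) (E : Finset (Finset V)),
      RPartite side E → Intersecting E → ∀ C, ¬ NTCov side E C) :=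
  ⟨unbounded, fun _ _ _ _ _ h hI C => two h hI C⟩

end Pool.Agent.Results.MP_2c613a_co.Infinite
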