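import Mathlib
import Pool.Agent.H23.NTCoverA

set_option autoImplicit false

namespace Pool.Agent.Results.MP_2c613a_co.WideSides
open Pool.Agent.H23.NTCover

theorem result :
    ∀ (r : ℕ) (V : Type) [Fintype V] [DecidableEq V] (side : V → Fin r) (E : Finset (Finset V)),
      RPartite side E → Intersecting E →
      (∀ i, 2 ≤ (Finset.univ.filter fun v => side v = i).card) → (∃ C, NTCov side E C) →
        ∃ C, NTCov side E C ∧ C.card ≤ r ^ r :=
  fun _ _ _ _ _ _ h hI h2 hC => bounded h hI h2 hC

end Pool.Agent.Results.MP_2c613a_co.WideSides
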